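import Mathlib

/-!
# Doi deformations which are not deformations via matched pairs

Let `k` be a field with more than two elements and `H = k[c, c⁻¹, x]` the commutative Hopf algebra
with `c` group-like and `Δ x = x ⊗ 1 + c ⊗ x`.  There is a normalized Sweedler cocycle `σ` on `H`
such that `H_σ` is not `H_r` for any matched pair `(A, H)` and any deformation map `r : H → A`.
-/

set_option autoImplicit false

open scoped TensorProduct

namespace Pool.Agent.Results.MP_16410b_al.NotFromMatchedPair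

universe u v w

section Defs

variable {k : Type u} [Field k] {H : Type v} [Ring H] [HopfAlgebra k H]

/-- `f * g`, that is `c ↦ f(c₁) g(c₂)`, for linear maps `f : C → k` and `g : C → M`. -/
noncomputable def conv {C : Type v} [AddCommGroup C] [Module k C] [Coalgebra k C] {M : Type w}
    [AddCommGroup M] [Module k M] (f : C →ₗ[k] k) (g : C →ₗ[k] M) : C →ₗ[k] M :=
  (TensorProduct.lid k M).toLinearMap ∘ₗ TensorProduct.map f g ∘ₗ Coalgebra.comul

/-- `g * f`, that is `c ↦ g(c₁) f(c₂)`, for linear maps `g : C → M` and `f : C → k`. -/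
noncomputable def convR {C : Type v} [AddCommGroup C] [Module k C] [Coalgebra k C] {M : Type w}
    [AddCommGroup M] [Module k M] (g : C →ₗ[k] M) (f : C →ₗ[k] k) : C →ₗ[k] M :=
  (TensorProduct.rid k M).toLinearMap ∘ₗ TensorProduct.map g f ∘ₗ Coalgebra.comul

/-- `σ` is a normalized Sweedler cocycle on `H` with convolution inverse `σ'`. -/
structure IsCocycle (σ σ' : H ⊗[k] H →ₗ[k] k) : Prop where
  left_inv : conv σ' σ = Coalgebra.counit
  right_inv : conv σ σ' = Coalgebra.counit
  cocycle : ∀ h g l : H,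
    conv σ (σ ∘ₗ (TensorProduct.mk k H H).flip l ∘ₗ LinearMap.mul' k H) (h ⊗ₜ g) =
      conv σ (σ ∘ₗ TensorProduct.mk k H H h ∘ₗ LinearMap.mul' k H) (g ⊗ₜ l)
  norm_left : ∀ h : H, σ (1 ⊗ₜ h) = Coalgebra.counit (R := k) h
  norm_right : ∀ h : H, σ (h ⊗ₜ 1) = Coalgebra.counit (R := k) h

/-- The multiplication `h ⊗ g ↦ σ(h₁, g₁) h₂ g₂ σ'(h₃, g₃)` of the Doi deformation `H_σ`. -/
noncomputable def doi (σ σ' : H ⊗[k] H →ₗ[k] k) : H ⊗[k] H →ₗ[k] H :=
  conv σ (convR (LinearMap.mul' k H) σ')

/-- The linear map `μ : V ⊗ V → V` and the element `e` turn the coalgebra `V` into a Hopf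
algebra. -/
structure IsHopfMul {V : Type w} [AddCommGroup V] [Module k V] [Coalgebra k V]
    (μ : V ⊗[k] V →ₗ[k] V) (e : V) : Prop where
  assoc : ∀ x y z, μ (μ (x ⊗ₜ y) ⊗ₜ z) = μ (x ⊗ₜ μ (y ⊗ₜ z))
  one_mul : ∀ x, μ (e ⊗ₜ x) = x
  mul_one : ∀ x, μ (x ⊗ₜ e) = x
  comul_mul : ∀ t, Coalgebra.comul (R := k) (μ t) = TensorProduct.map μ μ (Coalgebra.comul t)
  counit_mul : ∀ t, Coalgebra.counit (R := k) (μ t) = Coalgebra.counit t
  comul_one : Coalgebra.comul (R := k) e = e ⊗ₜ e
  counit_one : Coalgebra.counit (R := k) e = 1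
  antipode : ∃ S : V →ₗ[k] V, (∀ x, μ (S.rTensor V (Coalgebra.comul x)) =
    Coalgebra.counit (R := k) x • e) ∧
    (∀ x, μ (S.lTensor V (Coalgebra.comul x)) = Coalgebra.counit (R := k) x • e)

variable {A : Type w} [Ring A] [HopfAlgebra k A]

/-- `h ⊗ c ↦ (h₁ ▷ c₁) ⊗ (h₂ ◁ c₂)` -/
noncomputable def cross (tl : H ⊗[k] A →ₗc[k] H) (tr : H ⊗[k] A →ₗc[k] A) :
    H ⊗[k] A →ₗ[k] A ⊗[k] H :=
  TensorProduct.map tr.toLinearMap tl.toLinearMap ∘ₗ Coalgebra.comul

/-- The multiplication of the bicrossed product,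
`(a ⊗ h) ⊗ (c ⊗ g) ↦ a (h₁ ▷ c₁) ⊗ (h₂ ◁ c₂) g`. -/
noncomputable def bmul (tl : H ⊗[k] A →ₗc[k] H) (tr : H ⊗[k] A →ₗc[k] A) :
    (A ⊗[k] H) ⊗[k] (A ⊗[k] H) →ₗ[k] A ⊗[k] H :=
  TensorProduct.map (LinearMap.mul' k A) LinearMap.id ∘ₗ
    (TensorProduct.assoc k A A H).symm.toLinearMap ∘ₗ
    LinearMap.lTensor A (LinearMap.lTensor A (LinearMap.mul' k H) ∘ₗ
      (TensorProduct.assoc k A H H).toLinearMap ∘ₗ LinearMap.rTensor H (cross tl tr) ∘ₗ
      (TensorProduct.assoc k H A H).symm.toLinearMap) ∘ₗ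
    (TensorProduct.assoc k A H (A ⊗[k] H)).toLinearMap

/-- `(A, H, ◁, ▷)` is a matched pair; `tl` is `◁` and `tr` is `▷`. -/
structure IsMatchedPair (tl : H ⊗[k] A →ₗc[k] H) (tr : H ⊗[k] A →ₗc[k] A) : Prop where
  tr_one : ∀ h, tr (h ⊗ₜ 1) = Coalgebra.counit (R := k) h • (1 : A)
  one_tr : ∀ a, tr (1 ⊗ₜ a) = a
  one_tl : ∀ a, tl (1 ⊗ₜ a) = Coalgebra.counit (R := k) a • (1 : H)
  tl_one : ∀ h, tl (h ⊗ₜ 1) = h
  hopf : IsHopfMul (bmul tl tr) (1 ⊗ₜ 1)

/-- The multiplication `h ⊗ g ↦ (h ◁ r(g₁)) g₂`. -/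
noncomputable def defMul (tl : H ⊗[k] A →ₗc[k] H) (r : H →ₗc[k] A) : H ⊗[k] H →ₗ[k] H :=
  LinearMap.mul' k H ∘ₗ
    LinearMap.rTensor H (tl.toLinearMap ∘ₗ LinearMap.lTensor H r.toLinearMap) ∘ₗ
    (TensorProduct.assoc k H H H).symm.toLinearMap ∘ₗ LinearMap.lTensor H Coalgebra.comul

/-- `r` is a deformation map of the matched pair. -/
structure IsDeformationMap (tl : H ⊗[k] A →ₗc[k] H) (tr : H ⊗[k] A →ₗc[k] A)
    (r : H →ₗc[k] A) : Prop where
  unitary : r 1 = 1
  cocentral : ∀ h : H, LinearMap.rTensor H r.toLinearMap (Coalgebra.comul (R := k) h) =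
    LinearMap.rTensor H r.toLinearMap (TensorProduct.comm k H H (Coalgebra.comul (R := k) h))
  compat : ∀ h g : H, r (defMul tl r (h ⊗ₜ g)) =
    LinearMap.mul' k A (TensorProduct.map r.toLinearMap
      (tr.toLinearMap ∘ₗ LinearMap.lTensor H r.toLinearMap)
      (TensorProduct.assoc k H H H (Coalgebra.comul (R := k) h ⊗ₜ g)))

/-- The multiplication `μ` on the coalgebra `H` is that of `H_r` for some Hopf algebra `A`, some
matched pair `(A, H, ◁, ▷)` and some deformation map `r : H → A`. -/
def ComesFromMatchedPair.{x} (μ : H ⊗[k] H →ₗ[k] H) : Prop :=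
  ∃ (A : Type x) (_ : Ring A) (_ : HopfAlgebra k A) (tl : H ⊗[k] A →ₗc[k] H)
    (tr : H ⊗[k] A →ₗc[k] A) (r : H →ₗc[k] A),
    IsMatchedPair tl tr ∧ IsDeformationMap tl tr r ∧ μ = defMul tl r

/-- The negation of the question over the field `k`: for some Hopf algebra `H` over `k` and some
normalized Sweedler cocycle `σ` on `H` the Doi deformation `H_σ` is not `H_r` for any Hopf algebra
`A` (in the universe `x`), any matched pair `(A, H)` and any deformation map `r`. -/
def NegationHolds.{x, y} (k : Type y) [Field k] : Prop :=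
  ∃ (H : Type y) (_ : Ring H) (_ : HopfAlgebra k H) (σ σ' : H ⊗[k] H →ₗ[k] k),
    IsCocycle σ σ' ∧ ¬ ComesFromMatchedPair.{y, y, x} (doi σ σ')

end Defs

section Obstruction

variable {k : Type u} [Field k] {H : Type v} [Ring H] [HopfAlgebra k H]

/-- A multiplication which comes from a matched pair agrees with that of `H` on `h ⊗ x` if `x` is
skew-primitive. -/
theorem obstruction (μ : H ⊗[k] H →ₗ[k] H) (hμ : ComesFromMatchedPair.{u, v, w} μ) (c x : H)
    (hx : Coalgebra.comul (R := k) x = x ⊗ₜ 1 + c ⊗ₜ x) (p0 p1 : H →ₗ[k] k)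
    (h0 : p0 1 = 1) (h0c : p0 c = 0) (h0x : p0 x = 0) (h1x : p1 x = 1) (h : H) :
    μ (h ⊗ₜ x) = h * x := by
  obtain ⟨A, _, _, tl, tr, r, hm, hr, rfl⟩ := hμ
  have hc := hr.cocentral x
  rw [hx] at hc
  simp only [map_add, LinearMap.rTensor_tmul, TensorProduct.comm_tmul] at hc
  have hr1 : r.toLinearMap 1 = 1 := hr.unitary
  have k0 := congrArg ((TensorProduct.rid k A) ∘ LinearMap.lTensor A p0) hc
  simp only [Function.comp_apply, map_add, LinearMap.lTensor_tmul, h0, h0c, h0x,
    TensorProduct.tmul_zero, add_zero, TensorProduct.rid_tmul, one_smul, map_zero] at k0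
  rw [k0] at hc
  have k1 := congrArg ((TensorProduct.rid k A) ∘ LinearMap.lTensor A p1) hc
  simp only [Function.comp_apply, LinearMap.lTensor_tmul, h1x, TensorProduct.zero_tmul,
    add_zero, zero_add, TensorProduct.rid_tmul, one_smul, hr1] at k1
  simp only [defMul, LinearMap.comp_apply, LinearMap.lTensor_tmul, hx, TensorProduct.tmul_add,
    map_add, LinearEquiv.coe_coe, TensorProduct.assoc_symm_tmul, LinearMap.rTensor_tmul, k0, k1,
    TensorProduct.tmul_zero, map_zero, TensorProduct.zero_tmul, zero_add]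
  have : tl.toLinearMap (h ⊗ₜ[k] (1 : A)) = h := hm.tl_one h
  rw [this]
  rfl

end Obstruction

section Example

open Polynomial

variable (k : Type u) [Field k]

/-- The infinite cyclic group. -/
abbrev Gp : Type := Multiplicative ℤ

/-- The group algebra `k[c, c⁻¹]`. -/
abbrev K : Type u := MonoidAlgebra k Gp

/-- The algebra `H = k[c, c⁻¹, x]`. -/
abbrev Hx : Type u := Polynomial (K k)

/-- The group-like element `c ^ n`. -/
noncomputable def g (n : Gp) : Hx k := C (MonoidAlgebra.of k Gp n)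

/-- The comultiplication: `c ↦ c ⊗ c` and `x ↦ x ⊗ 1 + c ⊗ x`. -/
noncomputable def comulHom : Hx k →ₐ[k] Hx k ⊗[k] Hx k :=
  Polynomial.aevalTower ((Algebra.TensorProduct.map (Polynomial.CAlgHom (R := k))
    (Polynomial.CAlgHom (R := k))).comp (Bialgebra.comulAlgHom k (K k)))
    (X ⊗ₜ 1 + g k (Multiplicative.ofAdd 1) ⊗ₜ X : Hx k ⊗[k] Hx k)

/-- The counit: `c ↦ 1` and `x ↦ 0`. -/
noncomputable def counitHom : Hx k →ₐ[k] k :=
  Polynomial.aevalTower (Bialgebra.counitAlgHom k (K k)) 0

/-- The antipode: `c ↦ c⁻¹` and `x ↦ - c⁻¹ x`. -/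
noncomputable def antiHom : Hx k →ₐ[k] Hx k :=
  Polynomial.aevalTower ((Polynomial.CAlgHom (R := k)).comp
    (MonoidAlgebra.lift k (K k) Gp ((MonoidAlgebra.of k Gp).comp (invMonoidHom (α := Gp)))))
    (- g k (Multiplicative.ofAdd (-1)) * X)

theorem comulHom_X : comulHom k X = X ⊗ₜ 1 + g k (Multiplicative.ofAdd 1) ⊗ₜ X :=
  Polynomial.aevalTower_X _ _

theorem comulHom_g (n : Gp) : comulHom k (g k n) = g k n ⊗ₜ g k n := by
  unfold comulHom g
  rw [aevalTower_C]
  simp

theorem counitHom_X : counitHom k X = 0 := Polynomial.aevalTower_X _ _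

theorem counitHom_g (n : Gp) : counitHom k (g k n) = 1 := by
  unfold counitHom g
  rw [aevalTower_C]
  simp

theorem antiHom_X : antiHom k X = - g k (Multiplicative.ofAdd (-1)) * X :=
  Polynomial.aevalTower_X _ _

theorem antiHom_g (n : Gp) : antiHom k (g k n) = g k n⁻¹ := by
  unfold antiHom g
  rw [aevalTower_C]
  simp

theorem g_one : g k 1 = 1 := by
  unfold g
  rw [map_one, map_one]
theorem g_mul (m n : Gp) : g k (m * n) = g k m * g k n := by
  unfold g
  rw [map_mul, map_mul]

theorem hom_ext {B : Type*} [Semiring B] [Algebra k B] {f f' : Hx k →ₐ[k] B} (hX : f X = f' X)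
    (hg : ∀ n, f (g k n) = f' (g k n)) : f = f' := by
  apply Polynomial.algHom_ext' _ hX
  apply MonoidAlgebra.algHom_ext
  · intro n
    exact hg n
  · ext

noncomputable instance : Bialgebra k (Hx k) :=
  Bialgebra.ofAlgHom (comulHom k) (counitHom k)
    (by
      apply hom_ext
      · simp only [AlgHom.comp_apply, comulHom_X, map_add, Algebra.TensorProduct.map_tmul,
          comulHom_g, AlgHom.id_apply, map_one, TensorProduct.add_tmul, TensorProduct.tmul_add]
        simp [Algebra.TensorProduct.one_def, add_assoc]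
      · intro n
        simp [comulHom_g])
    (by
      apply hom_ext
      · simp [comulHom_X, counitHom_X, counitHom_g]
      · intro n
        simp [comulHom_g, counitHom_g])
    (by
      apply hom_ext
      · simp [comulHom_X, counitHom_X]
      · intro n
        simp [comulHom_g, counitHom_g])

theorem comulAlgHom_eq : Bialgebra.comulAlgHom k (Hx k) = comulHom k := rfl
theorem counitAlgHom_eq : Bialgebra.counitAlgHom k (Hx k) = counitHom k := rfl

theorem mul_anti_left : (Algebra.TensorProduct.lmul' k (S := Hx k)).comp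
    ((Algebra.TensorProduct.map (antiHom k) (AlgHom.id k (Hx k))).comp (comulHom k)) =
    (Algebra.ofId k (Hx k)).comp (counitHom k) := by
  apply hom_ext
  · simp only [AlgHom.comp_apply, comulHom_X, counitHom_X, map_add, map_zero,
      Algebra.TensorProduct.map_tmul, Algebra.TensorProduct.lmul'_apply_tmul, antiHom_X, antiHom_g,
      map_one, AlgHom.id_apply, ofAdd_neg]
    ring
  · intro n
    simp only [AlgHom.comp_apply, comulHom_g, counitHom_g, Algebra.TensorProduct.map_tmul,
      Algebra.TensorProduct.lmul'_apply_tmul, antiHom_g, AlgHom.id_apply, ← g_mul, inv_mul_cancel,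
      g_one, map_one]

theorem mul_anti_right : (Algebra.TensorProduct.lmul' k (S := Hx k)).comp
    ((Algebra.TensorProduct.map (AlgHom.id k (Hx k)) (antiHom k)).comp (comulHom k)) =
    (Algebra.ofId k (Hx k)).comp (counitHom k) := by
  apply hom_ext
  · simp only [AlgHom.comp_apply, comulHom_X, counitHom_X, map_add, map_zero,
      Algebra.TensorProduct.map_tmul, Algebra.TensorProduct.lmul'_apply_tmul, antiHom_X,
      map_one, AlgHom.id_apply, ofAdd_neg, mul_one]
    have h : g k (Multiplicative.ofAdd 1) * g k (Multiplicative.ofAdd 1)⁻¹ = 1 := by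
      rw [← g_mul, mul_inv_cancel, g_one]
    linear_combination (-X) * h
  · intro n
    simp only [AlgHom.comp_apply, comulHom_g, counitHom_g, Algebra.TensorProduct.map_tmul,
      Algebra.TensorProduct.lmul'_apply_tmul, antiHom_g, AlgHom.id_apply, ← g_mul, mul_inv_cancel,
      g_one, map_one]

noncomputable instance : HopfAlgebra k (Hx k) where
  antipode := (antiHom k).toLinearMap
  mul_antipode_rTensor_comul := congrArg AlgHom.toLinearMap (mul_anti_left k)
  mul_antipode_lTensor_comul := congrArg AlgHom.toLinearMap (mul_anti_right k)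


/-- The projection `H → k[c, c⁻¹]`, `x ↦ 0`. -/
noncomputable def pHom : Hx k →ₐ[k] K k := Polynomial.aevalTower (AlgHom.id k (K k)) 0

theorem pHom_X : pHom k X = 0 := Polynomial.aevalTower_X _ _

theorem pHom_g (n : Gp) : pHom k (g k n) = MonoidAlgebra.of k Gp n :=
  Polynomial.aevalTower_C _ _ _

theorem pHom_comul : (Algebra.TensorProduct.map (pHom k) (pHom k)).comp (comulHom k) =
    (Bialgebra.comulAlgHom k (K k)).comp (pHom k) := by
  apply hom_ext
  · simp only [AlgHom.comp_apply, comulHom_X, map_add, Algebra.TensorProduct.map_tmul, pHom_X,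
      map_zero, TensorProduct.zero_tmul, TensorProduct.tmul_zero, add_zero]
  · intro n
    simp only [AlgHom.comp_apply, comulHom_g, Algebra.TensorProduct.map_tmul, pHom_g]
    simp

theorem pHom_counit : (Bialgebra.counitAlgHom k (K k)).comp (pHom k) = counitHom k := by
  apply hom_ext
  · simp only [AlgHom.comp_apply, pHom_X, counitHom_X, map_zero]
  · intro n
    simp only [AlgHom.comp_apply, pHom_g, counitHom_g]
    simp

/-- The projection as a map of coalgebras. -/
noncomputable def pc : Hx k →ₗc[k] K k :=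
  { (pHom k).toLinearMap with
    counit_comp := congrArg AlgHom.toLinearMap (pHom_counit k)
    map_comp_comul := congrArg AlgHom.toLinearMap (pHom_comul k) }

/-- The bilinear form `c ^ i ⊗ c ^ j ↦ u i j`. -/
noncomputable def B (u : Gp → Gp → k) : K k ⊗[k] K k →ₗ[k] k :=
  TensorProduct.lift ((MonoidAlgebra.basis Gp k).constr k fun i =>
    (MonoidAlgebra.basis Gp k).constr k fun j => u i j)

variable {k}

theorem B_of (u : Gp → Gp → k) (i j : Gp) :
    B k u (MonoidAlgebra.of k Gp i ⊗ₜ MonoidAlgebra.of k Gp j) = u i j := by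
  have h : ∀ i, MonoidAlgebra.of k Gp i = MonoidAlgebra.basis Gp k i := by
    intro i
    simp
  rw [B, TensorProduct.lift.tmul, h, h, Module.Basis.constr_basis, Module.Basis.constr_basis]

theorem comul_of (i j : Gp) :
    Coalgebra.comul (R := k) (MonoidAlgebra.of k Gp i ⊗ₜ[k] MonoidAlgebra.of k Gp j) =
      (MonoidAlgebra.of k Gp i ⊗ₜ[k] MonoidAlgebra.of k Gp j) ⊗ₜ[k]
        (MonoidAlgebra.of k Gp i ⊗ₜ[k] MonoidAlgebra.of k Gp j) := by
  rw [TensorProduct.comul_tmul]
  simp

theorem conv_of {M : Type w} [AddCommGroup M] [Module k M] (f : K k ⊗[k] K k →ₗ[k] k)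
    (g : K k ⊗[k] K k →ₗ[k] M) (i j : Gp) :
    conv f g (MonoidAlgebra.of k Gp i ⊗ₜ MonoidAlgebra.of k Gp j) =
      f (MonoidAlgebra.of k Gp i ⊗ₜ MonoidAlgebra.of k Gp j) •
        g (MonoidAlgebra.of k Gp i ⊗ₜ MonoidAlgebra.of k Gp j) := by
  rw [conv, LinearMap.comp_apply, LinearMap.comp_apply, comul_of]
  simp

theorem ext_K {M : Type w} [AddCommGroup M] [Module k M] {f g : K k ⊗[k] K k →ₗ[k] M}
    (h : ∀ i j : Gp, f (MonoidAlgebra.of k Gp i ⊗ₜ MonoidAlgebra.of k Gp j) =
      g (MonoidAlgebra.of k Gp i ⊗ₜ MonoidAlgebra.of k Gp j)) : f = g := by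
  apply TensorProduct.ext'
  intro a b
  induction a using MonoidAlgebra.induction_on with
  | of i =>
    induction b using MonoidAlgebra.induction_on with
    | of j => exact h i j
    | add b b' hb hb' => rw [TensorProduct.tmul_add, map_add, map_add, hb, hb']
    | smul r b hb => rw [TensorProduct.tmul_smul, map_smul, map_smul, hb]
  | add a a' ha ha' => rw [TensorProduct.add_tmul, map_add, map_add, ha, ha']
  | smul r a ha => rw [← TensorProduct.smul_tmul', map_smul, map_smul, ha]

theorem conv_comp {C D : Type v} [AddCommGroup C] [Module k C] [Coalgebra k C]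
    [AddCommGroup D] [Module k D] [Coalgebra k D] {M : Type w} [AddCommGroup M] [Module k M]
    (P : C →ₗc[k] D) (F : D →ₗ[k] k) (G : D →ₗ[k] M) :
    conv (F ∘ₗ P.toLinearMap) (G ∘ₗ P.toLinearMap) = conv F G ∘ₗ P.toLinearMap := by
  unfold conv
  rw [TensorProduct.map_comp, LinearMap.comp_assoc, LinearMap.comp_assoc, LinearMap.comp_assoc]
  congr 2
  exact P.map_comp_comul

/-- The projection `H ⊗ H → K ⊗ K`. -/
noncomputable def P : Hx k ⊗[k] Hx k →ₗc[k] K k ⊗[k] K k :=
  Coalgebra.TensorProduct.map (pc k) (pc k)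

theorem P_tmul (a b : Hx k) : (P (k := k)) (a ⊗ₜ b) = pHom k a ⊗ₜ pHom k b := rfl

variable (k) in
/-- The bilinear form `u(i, j)` on `k[c, c⁻¹]`, extended to `H` by means of `x ↦ 0`. -/
noncomputable def sig (u : Gp → Gp → k) : Hx k ⊗[k] Hx k →ₗ[k] k :=
  B k u ∘ₗ (P (k := k)).toLinearMap

theorem sig_tmul (u : Gp → Gp → k) (a b : Hx k) :
    sig k u (a ⊗ₜ b) = B k u (pHom k a ⊗ₜ pHom k b) := rfl

theorem conv_add_right {C : Type v} [AddCommGroup C] [Module k C] [Coalgebra k C] {M : Type w}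
    [AddCommGroup M] [Module k M] (f : C →ₗ[k] k) (g g' : C →ₗ[k] M) :
    conv f (g + g') = conv f g + conv f g' := by
  unfold conv
  rw [TensorProduct.map_add_right, LinearMap.add_comp, LinearMap.comp_add]

theorem conv_smul_right {C : Type v} [AddCommGroup C] [Module k C] [Coalgebra k C] {M : Type w}
    [AddCommGroup M] [Module k M] (f : C →ₗ[k] k) (r : k) (g : C →ₗ[k] M) :
    conv f (r • g) = r • conv f g := by
  unfold conv
  rw [TensorProduct.map_smul_right, LinearMap.smul_comp, LinearMap.comp_smul]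

theorem cocycle_K (u : Gp → Gp → k) (hu : ∀ a b c, u a b * u (a * b) c = u b c * u a (b * c))
    (x y z : K k) :
    conv (B k u) (B k u ∘ₗ (TensorProduct.mk k (K k) (K k)).flip z ∘ₗ LinearMap.mul' k (K k))
        (x ⊗ₜ y) =
      conv (B k u) (B k u ∘ₗ TensorProduct.mk k (K k) (K k) x ∘ₗ LinearMap.mul' k (K k))
        (y ⊗ₜ z) := by
  induction x using MonoidAlgebra.induction_on with
  | add x x' hx hx' =>
    rw [TensorProduct.add_tmul, map_add, hx, hx', map_add, LinearMap.add_comp, LinearMap.comp_add,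
      conv_add_right, LinearMap.add_apply]
  | smul r x hx =>
    rw [← TensorProduct.smul_tmul', map_smul, hx, map_smul, LinearMap.smul_comp,
      LinearMap.comp_smul, conv_smul_right, LinearMap.smul_apply]
  | of a =>
    induction y using MonoidAlgebra.induction_on with
    | add y y' hy hy' => rw [TensorProduct.add_tmul, TensorProduct.tmul_add, map_add, map_add, hy, hy']
    | smul r y hy =>
      rw [← TensorProduct.smul_tmul', TensorProduct.tmul_smul, map_smul, map_smul, hy]
    | of b =>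
      induction z using MonoidAlgebra.induction_on with
      | add z z' hz hz' =>
        rw [map_add, LinearMap.add_comp, LinearMap.comp_add, conv_add_right, LinearMap.add_apply,
          hz, hz', TensorProduct.tmul_add, map_add]
      | smul r z hz =>
        rw [map_smul, LinearMap.smul_comp, LinearMap.comp_smul, conv_smul_right,
          LinearMap.smul_apply, hz, TensorProduct.tmul_smul, map_smul]
      | of c =>
        rw [conv_of, conv_of, B_of, B_of]
        simp only [LinearMap.comp_apply, LinearMap.mul'_apply, LinearMap.flip_apply,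
          TensorProduct.mk_apply, ← map_mul, B_of, smul_eq_mul, hu]

theorem sig_flip (u : Gp → Gp → k) (l : Hx k) :
    sig k u ∘ₗ (TensorProduct.mk k (Hx k) (Hx k)).flip l ∘ₗ LinearMap.mul' k (Hx k) =
      (B k u ∘ₗ (TensorProduct.mk k (K k) (K k)).flip (pHom k l) ∘ₗ LinearMap.mul' k (K k)) ∘ₗ
        (P (k := k)).toLinearMap := by
  apply TensorProduct.ext'
  intro a b
  show B k u (pHom k (a * b) ⊗ₜ pHom k l) = B k u ((pHom k a * pHom k b) ⊗ₜ pHom k l)
  rw [map_mul]

theorem sig_mk (u : Gp → Gp → k) (l : Hx k) :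
    sig k u ∘ₗ TensorProduct.mk k (Hx k) (Hx k) l ∘ₗ LinearMap.mul' k (Hx k) =
      (B k u ∘ₗ TensorProduct.mk k (K k) (K k) (pHom k l) ∘ₗ LinearMap.mul' k (K k)) ∘ₗ
        (P (k := k)).toLinearMap := by
  apply TensorProduct.ext'
  intro a b
  show B k u (pHom k l ⊗ₜ pHom k (a * b)) = B k u (pHom k l ⊗ₜ (pHom k a * pHom k b))
  rw [map_mul]

theorem counit_pHom (a : Hx k) : Coalgebra.counit (R := k) (pHom k a) =
    Coalgebra.counit (R := k) a := congrArg (fun f : Hx k →ₐ[k] k => f a) (pHom_counit k)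

theorem conv_B (u u' : Gp → Gp → k) (h : ∀ i j, u i j * u' i j = 1) :
    conv (B k u) (B k u') = Coalgebra.counit := by
  apply ext_K
  intro i j
  rw [conv_of, B_of, B_of, TensorProduct.counit_tmul]
  simp [h]

theorem conv_sig (u u' : Gp → Gp → k) (h : ∀ i j, u i j * u' i j = 1) :
    conv (C := Hx k ⊗[k] Hx k) (M := k) (sig k u) (sig k u') = Coalgebra.counit := by
  unfold sig
  rw [conv_comp, conv_B u u' h]
  exact (P (k := k)).counit_comp

theorem isCocycle_sig (u u' : Gp → Gp → k) (h : ∀ i j, u i j * u' i j = 1)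
    (hu : ∀ a b c, u a b * u (a * b) c = u b c * u a (b * c)) (h1 : ∀ i, u 1 i = 1)
    (h1' : ∀ i, u i 1 = 1) : IsCocycle (sig k u) (sig k u') where
  left_inv := conv_sig u' u fun i j => by rw [mul_comm, h]
  right_inv := conv_sig u u' h
  cocycle := by
    intro x y z
    rw [sig_flip, sig_mk]
    unfold sig
    rw [conv_comp, conv_comp]
    exact cocycle_K u hu (pHom k x) (pHom k y) (pHom k z)
  norm_left := by
    intro x
    rw [sig_tmul, map_one, ← counit_pHom]
    generalize pHom k x = y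
    induction y using MonoidAlgebra.induction_on with
    | add y y' hy hy' => rw [TensorProduct.tmul_add, map_add, map_add, hy, hy']
    | smul r y hy => rw [TensorProduct.tmul_smul, map_smul, map_smul, hy]
    | of b => 
      rw [← map_one (MonoidAlgebra.of k Gp), B_of, h1]
      simp
  norm_right := by
    intro x
    rw [sig_tmul, map_one, ← counit_pHom]
    generalize pHom k x = y
    induction y using MonoidAlgebra.induction_on with
    | add y y' hy hy' => rw [TensorProduct.add_tmul, map_add, map_add, hy, hy']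
    | smul r y hy => rw [← TensorProduct.smul_tmul', map_smul, map_smul, hy]
    | of b => 
      rw [← map_one (MonoidAlgebra.of k Gp), B_of, h1']
      simp

theorem comul_X : Coalgebra.comul (R := k) (X : Hx k) =
    X ⊗ₜ 1 + g k (Multiplicative.ofAdd 1) ⊗ₜ X := comulHom_X k

theorem comul_g (n : Gp) : Coalgebra.comul (R := k) (g k n) = g k n ⊗ₜ g k n := comulHom_g k n

theorem comul_gX (n : Gp) : Coalgebra.comul (R := k) (g k n ⊗ₜ[k] (X : Hx k)) =
    (g k n ⊗ₜ X) ⊗ₜ (g k n ⊗ₜ 1) +
      (g k n ⊗ₜ g k (Multiplicative.ofAdd 1)) ⊗ₜ (g k n ⊗ₜ X) := by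
  rw [TensorProduct.comul_tmul, comul_X, comul_g, TensorProduct.tmul_add, map_add]
  rfl

theorem sig_gX (u : Gp → Gp → k) (n : Gp) : sig k u (g k n ⊗ₜ X) = 0 := by
  rw [sig_tmul, pHom_X, TensorProduct.tmul_zero, map_zero]

theorem sig_gg (u : Gp → Gp → k) (m n : Gp) : sig k u (g k m ⊗ₜ g k n) = u m n := by
  rw [sig_tmul, pHom_g, pHom_g, B_of]

theorem doi_gX (u u' : Gp → Gp → k) (n : Gp) (h : u' n 1 = 1) :
    doi (sig k u) (sig k u') (g k n ⊗ₜ X) =
      u n (Multiplicative.ofAdd 1) • (g k n * X) := by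
  have e1 : convR (LinearMap.mul' k (Hx k)) (sig k u') (g k n ⊗ₜ X) = g k n * X := by
    rw [convR, LinearMap.comp_apply, LinearMap.comp_apply, comul_gX, map_add,
      TensorProduct.map_tmul, TensorProduct.map_tmul, sig_gX, TensorProduct.tmul_zero, add_zero,
      ← g_one, sig_gg, h]
    simp
  rw [doi, conv, LinearMap.comp_apply, LinearMap.comp_apply, comul_gX, map_add,
    TensorProduct.map_tmul, TensorProduct.map_tmul, sig_gX, sig_gg, e1, TensorProduct.zero_tmul,
    zero_add]
  simp

end Example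

/-- **Theorem.** Let `k` be a field with more than two elements. There are a Hopf algebra `H` over
`k` and a normalized Sweedler cocycle on `H` such that the Doi deformation of `H` does not come from
any matched pair. -/
theorem result (k : Type u) [Field k] (hk : ∃ q : k, q ≠ 0 ∧ q ≠ 1) :
    NegationHolds.{w, u} k := by
  obtain ⟨q, hq0, hq1⟩ := hk
  let u : Gp → Gp → k := fun i j => q ^ (i.toAdd * j.toAdd)
  let u' : Gp → Gp → k := fun i j => q ^ (- (i.toAdd * j.toAdd))
  refine ⟨Hx k, inferInstance, inferInstance, sig k u, sig k u', isCocycle_sig u u' ?_ ?_ ?_ ?_, ?_⟩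
  · intro i j
    show q ^ (i.toAdd * j.toAdd) * q ^ (- (i.toAdd * j.toAdd)) = 1
    rw [← zpow_add₀ hq0, add_neg_cancel, zpow_zero]
  · intro a b c
    show q ^ (a.toAdd * b.toAdd) * q ^ ((a * b).toAdd * c.toAdd) =
      q ^ (b.toAdd * c.toAdd) * q ^ (a.toAdd * (b * c).toAdd)
    rw [← zpow_add₀ hq0, ← zpow_add₀ hq0, toAdd_mul, toAdd_mul]
    congr 1
    ring
  · intro i
    show q ^ ((1 : Gp).toAdd * i.toAdd) = 1
    simp
  · intro i
    show q ^ (i.toAdd * (1 : Gp).toAdd) = 1
    simp
  · intro h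
    let c0 : Hx k →ₗ[k] K k := (Polynomial.lcoeff (K k) 0).restrictScalars k
    let c1 : Hx k →ₗ[k] K k := (Polynomial.lcoeff (K k) 1).restrictScalars k
    let d : K k →ₗ[k] k := (MonoidAlgebra.basis Gp k).coord 1
    have hg0 : ∀ n : Gp, c0 (g k n) = MonoidAlgebra.of k Gp n := fun n => Polynomial.coeff_C_zero
    have hd : ∀ n : Gp, d (MonoidAlgebra.of k Gp n) = if n = 1 then 1 else 0 := by
      intro n
      have : MonoidAlgebra.of k Gp n = MonoidAlgebra.basis Gp k n := by simp
      rw [this]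
      show (MonoidAlgebra.basis Gp k).repr (MonoidAlgebra.basis Gp k n) 1 = _
      rw [Module.Basis.repr_self, Finsupp.single_apply]
    have h1 := obstruction _ h (g k (Multiplicative.ofAdd 1)) Polynomial.X comul_X
      (d ∘ₗ c0) (d ∘ₗ c1) ?_ ?_ ?_ ?_ (g k (Multiplicative.ofAdd 1))
    · rw [doi_gX] at h1
      · have h2 := congrArg (fun y => (MonoidAlgebra.basis Gp k).coord (Multiplicative.ofAdd 1)
          ((Polynomial.lcoeff (K k) 1).restrictScalars k y)) h1
        simp only [map_smul] at h2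
        have h3 : ((Polynomial.lcoeff (K k) 1).restrictScalars k
            (g k (Multiplicative.ofAdd 1) * Polynomial.X)) =
            MonoidAlgebra.of k Gp (Multiplicative.ofAdd 1) := by
          show (Polynomial.C _ * Polynomial.X).coeff 1 = _
          rw [Polynomial.coeff_C_mul_X, if_pos rfl]
        have h4 : (MonoidAlgebra.basis Gp k).coord (Multiplicative.ofAdd 1)
            (MonoidAlgebra.of k Gp (Multiplicative.ofAdd 1)) = 1 := by
          have : MonoidAlgebra.of k Gp (Multiplicative.ofAdd 1) =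
              MonoidAlgebra.basis Gp k (Multiplicative.ofAdd 1) := by simp
          rw [this, Module.Basis.coord_apply, Module.Basis.repr_self, Finsupp.single_apply,
            if_pos rfl]
        rw [h3, h4] at h2
        apply hq1
        have h5 : u (Multiplicative.ofAdd 1) (Multiplicative.ofAdd 1) = q := by
          show q ^ ((1 : ℤ) * 1) = q
          simp
        rw [h5] at h2
        simpa using h2
      · show q ^ (- ((1 : ℤ) * 0)) = 1
        simp
    · rw [LinearMap.comp_apply, ← g_one, hg0, hd, if_pos rfl]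
    · rw [LinearMap.comp_apply, hg0, hd, if_neg]
      decide
    · show d ((Polynomial.X : Hx k).coeff 0) = 0
      rw [Polynomial.coeff_X_zero, map_zero]
    · show d ((Polynomial.X : Hx k).coeff 1) = 1
      rw [Polynomial.coeff_X_one, ← map_one (MonoidAlgebra.of k Gp), hd, if_pos rfl]

end Pool.Agent.Results.MP_16410b_al.NotFromMatchedPair
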